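import Mathlib

namespace Pool.Agent.H43LA

variable {V : Type*}

/-- Every proper nonempty set of vertices has at least two crossing edges. -/
def TwoEdge (G : SimpleGraph V) : Prop :=
  ∀ S : Set V, S.Nonempty → Sᶜ.Nonempty → ∃ x y x' y', x ∈ S ∧ y ∉ S ∧ G.Adj x y ∧
    x' ∈ S ∧ y' ∉ S ∧ G.Adj x' y' ∧ ¬ (x = x' ∧ y = y')

theorem twoEdge_of {G : SimpleGraph V} (hc : G.Connected)
    (hb : ∀ e ∈ G.edgeSet, ¬ G.IsBridge e) : TwoEdge G := by
  intro S hS hSc
  obtain ⟨a, ha⟩ := hS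
  obtain ⟨b, hb'⟩ := hSc
  obtain ⟨p⟩ := hc.preconnected a b
  obtain ⟨d, _, hd1, hd2⟩ := p.exists_boundary_dart S ha hb'
  have hadj : G.Adj d.fst d.snd := d.adj
  have hnb := hb s(d.fst, d.snd) hadj
  rw [SimpleGraph.isBridge_iff] at hnb
  push Not at hnb
  obtain ⟨q⟩ := hnb
  obtain ⟨d', _, hd1', hd2'⟩ := q.exists_boundary_dart S hd1 hd2
  have hadj' := d'.adj
  rw [SimpleGraph.deleteEdges_adj] at hadj'
  refine ⟨d.fst, d.snd, d'.fst, d'.snd, hd1, hd2, hadj, hd1', hd2', hadj'.1, ?_⟩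
  rintro ⟨h1, h2⟩
  apply hadj'.2
  rw [Set.mem_singleton_iff, ← h1, ← h2]

theorem conn_of_twoEdge {G : SimpleGraph V} [Nonempty V] (h : TwoEdge G) : G.Connected := by
  refine ⟨?_⟩
  intro a b
  by_contra hab
  obtain ⟨x, y, _, _, hx, hy, hxy, _⟩ := h {v | G.Reachable a v} ⟨a, SimpleGraph.Reachable.refl a⟩
    ⟨b, hab⟩
  exact hy (hx.trans hxy.reachable)

theorem bridgeless_of_twoEdge {G : SimpleGraph V} (h : TwoEdge G) :
    ∀ e ∈ G.edgeSet, ¬ G.IsBridge e := by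
  intro e
  induction e using Sym2.ind with
  | _ u v =>
    intro he hbr
    rw [SimpleGraph.isBridge_iff] at hbr
    have hnr := hbr
    obtain ⟨x, y, x', y', hx, hy, hxy, hx', hy', hxy', hne⟩ :=
      h {w | (G.deleteEdges {s(u, v)}).Reachable u w}
      ⟨u, SimpleGraph.Reachable.refl u⟩ ⟨v, hnr⟩
    have key : ∀ {x y : V}, (G.deleteEdges {s(u, v)}).Reachable u x →
        ¬ (G.deleteEdges {s(u, v)}).Reachable u y → G.Adj x y →
        x = u ∧ y = v := by
      intro x y hx hy hxy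
      have hnadj : ¬ (G.deleteEdges {s(u, v)}).Adj x y := fun hh => hy (hx.trans hh.reachable)
      rw [SimpleGraph.deleteEdges_adj] at hnadj
      have h2 : s(x, y) = s(u, v) := by
        by_contra hh
        exact hnadj ⟨hxy, fun h3 => hh (Set.mem_singleton_iff.1 h3)⟩
      rw [Sym2.eq_iff] at h2
      rcases h2 with h2 | h2
      · exact h2
      · exfalso
        rw [h2.1] at hx
        exact hnr hx
    have k1 := key hx hy hxy
    have k2 := key hx' hy' hxy'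
    exact hne ⟨k1.1.trans k2.1.symm, k1.2.trans k2.2.symm⟩

end Pool.Agent.H43LA
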